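import Pool.Agent.TH117.CV.Murre

/-!
# Murre's conjectures for constant varieties over function fields

`𝒱₀` is a class of smooth projective geometrically irreducible varieties over the field `k₀` closed
under products, `C₀` the Chow groups with rational coefficients (in the form of their formal
properties, `IsChowProj`) and `H₀` a Weil cohomology theory (`IsWeilProj`) with graded commutative
cup product. Assume the Kunneth and the Lefschetz standard conjectures for `𝒱₀`.

(1) Let `B` be a variety of `𝒱₀` such that homological and rational equivalence agree on `X × B` for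
all `X` in `𝒱₀`, and let `k = k₀(B)`. Then Murre's conjectures (A), (B), (C), (D) hold for all
constant varieties `X_k = X ×_{k₀} k`, `X` in `𝒱₀` (in the form of the structure
`ConstantVarieties`), and for all their Chow-Kunneth decompositions. Moreover the step `F^n` of the
filtration vanishes for `n > dim B`.

(2) If `k₀` is finite (`HasFrobenius`) and Murre's conjectures hold for `𝒱₀` then homological and
rational equivalence agree for all `X` in `𝒱₀`, so (1) holds for all `B` in `𝒱₀`.

The proof is the one of `MP_f4876d_ag.ConstantVarieties`: correspondences acting as zero on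
`H^j(X_k)`, `i ≤ j < 2i`, are nilpotent on `CH^i(X_k)_hom`, since their lifts to `X × X × B` raise
the degree in `B` of the Kunneth components of lifts of cycles to `X × B`, and cycles all of whose
components have degree `> i` (or `> dim B`) in `B` vanish on the generic fibre by hard Lefschetz.
-/

open CategoryTheory AlgebraicGeometry

set_option autoImplicit false

universe u v v' w

namespace Pool.Agent.Results.MP_38de51_ag.ConstantVarieties

open Pool.Agent.H914 Pool.Agent.W492.BB Pool.Agent.TH133 Pool.Agent.TH613.MC Pool.Agent.TH117.CV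

/-- Assume the Kunneth and the Lefschetz standard conjectures for the varieties of `𝒱₀` over `k₀`.
(1) If homological and rational equivalence agree on all `X × B` then Murre's conjectures hold for
the constant varieties over `k = k₀(B)`, and `F^n = 0` for `n > dim B`. (2) If `k₀` is finite and
Murre's conjectures hold for `𝒱₀` then homological and rational equivalence agree. -/
theorem result {k₀ : Type u} [Field k₀] {𝒱₀ : VarClass k₀} (C₀ : TheoryData.{u, v, 0} 𝒱₀ ℚ)
    [IsChowProj C₀] {K : Type w} [Field K] (H₀ : WeilTheoryData.{u, v, w} C₀ K) [IsWeilProj H₀]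
    (hcomm : GradedCommutative H₀) (hK : KunnethConjecture H₀) (hL : LefschetzInverse H₀) :
    (∀ (B : 𝒱₀.Obj), (∀ X : 𝒱₀.Obj, HomEqRat H₀ (X.prod B)) →
      ∀ {k : Type u} [Field k] {𝒱 : VarClass k} (C : TheoryData.{u, v', 0} 𝒱 ℚ) [IsChowProj C]
        (H : WeilTheoryData.{u, v', w} C K) [IsWeilProj H] (_ : ConstantVarieties H₀ B H)
        (Y : 𝒱.Obj), (∃ π : ℕ → C.A (Y.prod Y), IsCK H Y π) ∧
          ∀ π : ℕ → C.A (Y.prod Y), IsCK H Y π → IsMurre H π ∧
            ∀ (i n : ℕ) (y : C.A Y), B.dim < n → InStep π i n y → y = 0) ∧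
    (∀ q : ℕ, HasFrobenius H₀ q →
      (∀ X : 𝒱₀.Obj, (∃ π : ℕ → C₀.A (X.prod X), IsCK H₀ X π) ∧
        ∀ π : ℕ → C₀.A (X.prod X), IsCK H₀ X π → IsMurre H₀ π) →
        ∀ X : 𝒱₀.Obj, HomEqRat H₀ X) := by
  refine ⟨?_, ?_⟩
  · intro B hR k _ 𝒱 C _ H _ S Y
    obtain ⟨h1, h2, h3, h4, h5⟩ := murre_constant S.data hcomm hK hL hR Y
    refine ⟨h1, fun π hπ => ⟨isMurre_of h2 h3 h4 h5 π hπ, fun i n y hn hy => ?_⟩⟩
    rw [inStep_iff, ckFil_constant S.data hcomm hK hL hR Y π hπ i n hn] at hy
    exact (Submodule.mem_bot _).1 hy
  · intro q hq hM X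
    obtain ⟨F, hF⟩ := exists_isBB (fun X => (hM X).1) (fun X => (murre_of_isMurre (hM X).2).2)
      (fun X => (murre_of_isMurre (hM X).2).1)
    exact homEqRat_of_isBB hq hK hF X

end Pool.Agent.Results.MP_38de51_ag.ConstantVarieties
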