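import Pool.Agent.TH133.AlgEq

/-!
# Powers of algebraic equivalence and the filtration of a Chow-Kunneth decomposition

`𝒱` is a class of smooth projective geometrically irreducible varieties over the field `k` closed
under products (for example all of them), `C` the Chow groups with rational coefficients (in the
form of their formal properties, `IsChowProj`) and `H` a Weil cohomology theory (`IsWeilProj`).

Let `X` be a variety such that, for all `Y`, the step `F^0` of the filtration of the Chow groups of
`Y × X` is independent of the Chow-Kunneth decomposition of `Y × X` (`MurreC0`; this is part of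
Murre's conjecture (C) for `Y × X`). Then, for every Chow-Kunneth decomposition of `X`, the step
`F^s CH^l(X)` contains the `s`-th power of algebraic equivalence: all classes
`Γ_* (c_1 × ⋯ × c_s)` where `c_i` is a zero-cycle of degree zero on a curve `T_i` and
`Γ ∈ CH^l(T_1 × ⋯ × T_s × X)`. For `s = 1`: `F^1 CH^l(X)` contains all algebraically trivial cycles.
-/

open CategoryTheory AlgebraicGeometry

set_option autoImplicit false

universe u v w

namespace Pool.Agent.Results.MP_38de51_ag.PowersOfAlgebraicEquivalence

open Pool.Agent.H914 Pool.Agent.W492.BB Pool.Agent.TH133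

/-- If the step `F^0` of the filtrations of the Chow groups of all `Y × X` is independent of the
Chow-Kunneth decomposition, then for each Chow-Kunneth decomposition of `X` the `s`-th power of
algebraic equivalence is contained in `F^s CH^l(X)`, for all `s ≥ 1` and `l`. -/
theorem result {k : Type u} [Field k] {𝒱 : VarClass k} (C : TheoryData.{u, v, 0} 𝒱 ℚ)
    [IsChowProj C] {K : Type w} [Field K] (H : WeilTheoryData.{u, v, w} C K) [IsWeilProj H]
    (X : 𝒱.Obj) (hX : ∀ Y : 𝒱.Obj, MurreC0 H (Y.prod X)) (π : ℕ → C.A (X.prod X))
    (hπ : IsCK H X π) (s l : ℕ) : algPower C X s l ≤ ckFil C π l s :=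
  algPower_le X hX hπ s l

end Pool.Agent.Results.MP_38de51_ag.PowersOfAlgebraicEquivalence
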